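import Pool.Agent.Helper15_SIQ.Stmts

/-!
# MP_021b97_an, Q1: module QUA (quaternion algebra)
-/

set_option autoImplicit false

open MeasureTheory Filter Topology

namespace Pool.Agent.SIQ.H50

open Pool.Agent.SIU Pool.Agent.SIQ

theorem nnC (z : E6) (i : Fin 3) : ((nn z i : ℝ) : ℂ) =
    z (lo i) * (starRingEnd ℂ) (z (lo i)) + z (hi i) * (starRingEnd ℂ) (z (hi i)) := by
  unfold nn
  push_cast
  rw [Complex.mul_conj, Complex.mul_conj, Complex.normSq_eq_norm_sq, Complex.normSq_eq_norm_sq]
  push_cast
  ring

theorem nn_qm (g z : E6) (i : Fin 3) : nn (qm g z) i = nn g i * nn z i := by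
  have h : ((nn (qm g z) i : ℝ) : ℂ) = ((nn g i * nn z i : ℝ) : ℂ) := by
    push_cast
    rw [nnC, nnC, nnC, qm_lo, qm_hi]
    simp only [map_sub, map_add, map_mul, Complex.conj_conj]
    ring
  exact_mod_cast h

theorem qua : QuaStmt := by
  refine ⟨nn_qm, ?_, ?_, ?_, ?_, ?_, ?_, ?_, ?_, ?_, ?_, ?_, ?_⟩
  · intro g z
    rw [mem_U1', mem_U1', mem_U1']
    constructor
    · intro h
      constructor
      · intro i
        have h1 := h i
        rw [nn_qm] at h1
        exact (pos_iff_pos_of_mul_pos h1).mpr (by
          rcases (nn_nonneg z i).lt_or_eq with h2 | h2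
          · exact h2
          · rw [← h2, mul_zero] at h1
            exact absurd h1 (lt_irrefl _))
      · intro i
        have h1 := h i
        rw [nn_qm] at h1
        rcases (nn_nonneg z i).lt_or_eq with h2 | h2
        · exact h2
        · rw [← h2, mul_zero] at h1
          exact absurd h1 (lt_irrefl _)
    · rintro ⟨h1, h2⟩ i
      rw [nn_qm]
      exact mul_pos (h1 i) (h2 i)
  · intro g h z
    apply ext6 <;> intro i
    · simp only [qm_lo, qm_hi, map_sub, map_add, map_mul, Complex.conj_conj]
      ring
    · simp only [qm_lo, qm_hi, map_sub, map_add, map_mul, Complex.conj_conj]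
      ring
  · intro c g z
    apply ext6 <;> intro i
    · simp only [qm_lo, act1_lo, act1_hi]
      ring
    · simp only [qm_hi, act1_lo, act1_hi]
      ring
  · intro z
    have hl : ∀ i, one6 (lo i) = 1 := by
      intro i; fin_cases i <;> rfl
    have hh : ∀ i, one6 (hi i) = 0 := by
      intro i; fin_cases i <;> rfl
    constructor
    · apply ext6 <;> intro i
      · simp [qm_lo, hl, hh]
      · simp [qm_hi, hl, hh]
    · apply ext6 <;> intro i
      · simp [qm_lo, hl, hh]
      · simp [qm_hi, hl, hh]
  · intro g z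
    apply ext6 <;> intro i
    · simp only [qm_lo, qm_hi, act1_lo, cq_lo, cq_hi, nnC, map_neg]
      ring
    · simp only [qm_lo, qm_hi, act1_hi, cq_lo, cq_hi, nnC, Complex.conj_conj]
      ring
  · intro g z
    apply ext6 <;> intro i
    · simp only [qm_lo, qm_hi, act1_lo, cq_lo, cq_hi, nnC, map_neg, Complex.conj_conj]
      ring
    · simp only [qm_lo, qm_hi, act1_hi, cq_lo, cq_hi, nnC, Complex.conj_conj, map_neg]
      ring
  · intro g h
    apply ext6 <;> intro i
    · simp only [qm_lo, qm_hi, cq_lo, cq_hi, map_neg, map_sub, map_mul, Complex.conj_conj]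
      ring
    · simp only [qm_lo, qm_hi, cq_lo, cq_hi, map_neg, map_sub, map_mul, Complex.conj_conj]
      ring
  · intro g h z
    apply ext6 <;> intro i
    · simp only [qm_lo, Pi.add_apply, map_add]
      ring
    · simp only [qm_hi, Pi.add_apply, map_add]
      ring
  · intro t g z
    apply ext6 <;> intro i
    · simp only [qm_lo, act1_lo, act1_hi, map_mul, Complex.conj_ofReal]
      ring
    · simp only [qm_hi, act1_lo, act1_hi, map_mul, Complex.conj_ofReal]
      ring
  · intro h w i
    unfold rip
    rw [qm_lo, cq_lo, cq_hi]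
    simp only [Complex.sub_re, Complex.add_re, Complex.mul_re, Complex.conj_re, Complex.conj_im,
      Complex.neg_re, Complex.neg_im]
    ring
  · intro g z i
    unfold rip nn
    rw [qm_lo, qm_hi, ← Complex.normSq_eq_norm_sq, ← Complex.normSq_eq_norm_sq]
    simp only [Complex.sub_re, Complex.add_re, Complex.mul_re, Complex.conj_re, Complex.conj_im,
      Complex.sub_im, Complex.add_im, Complex.mul_im, Complex.normSq_apply]
    ring
  · intro g i
    unfold nn
    rw [cq_lo, cq_hi, norm_neg, Complex.norm_conj]

end Pool.Agent.SIQ.H50
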