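import Pool.Agent.Helper15_SIQ.Stmts

/-!
# MP_021b97_an, Q1: module RHO (the weight)
-/

set_option autoImplicit false

open MeasureTheory Filter Topology

namespace Pool.Agent.SIQ.H50

open Pool.Agent.SIU Pool.Agent.SIQ

theorem rho_expand (δ : Fin 3 → ℝ) (g : E6) : rho δ g =
    (∏ i, th (δ i) ((g (lo i)).re / √(nn g i))) * Real.exp (-∑ i, nn g i) := by
  unfold rho
  rw [Finset.prod_mul_distrib, ← Finset.sum_neg_distrib, Real.exp_sum]

theorem rho_congr {δ : Fin 3 → ℝ} {g g' : E6} (h1 : ∀ i, nn g' i = nn g i)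
    (h2 : ∀ i, (g' (lo i)).re = (g (lo i)).re) : rho δ g' = rho δ g := by
  rw [rho_expand, rho_expand]
  simp only [h1, h2]

theorem continuous_th (d : ℝ) : Continuous (th d) := (contDiff_th d).continuous

theorem rho_contOn (δ : Fin 3 → ℝ) : ContinuousOn (rho δ) X1.U := by
  have he : rho δ = fun g => ∏ i, th (δ i) ((g (lo i)).re / √(nn g i)) * Real.exp (-nn g i) := rfl
  rw [he]
  refine continuousOn_finsetProd _ fun i _ => ?_
  refine ContinuousOn.mul ?_ ?_
  · refine (continuous_th (δ i)).comp_continuousOn ?_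
    refine ContinuousOn.div ?_ ?_ ?_
    · exact (Complex.continuous_re.comp (continuous_apply (lo i))).continuousOn
    · exact (Real.continuous_sqrt.comp (continuous_nn i)).continuousOn
    · intro z hz
      exact (Real.sqrt_pos.mpr ((mem_U1' z).mp hz i)).ne'
  · exact (Real.continuous_exp.comp (continuous_nn i).neg).continuousOn

theorem measurable_rho (δ : Fin 3 → ℝ) : Measurable (rho δ) := by
  have he : rho δ = fun g => ∏ i, th (δ i) ((g (lo i)).re / √(nn g i)) * Real.exp (-nn g i) := rfl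
  rw [he]
  refine Finset.measurable_prod _ fun i _ => ?_
  refine Measurable.mul ?_ ?_
  · refine (continuous_th (δ i)).measurable.comp ?_
    refine Measurable.div ?_ ?_
    · exact (Complex.continuous_re.comp (continuous_apply (lo i))).measurable
    · exact (Real.continuous_sqrt.comp (continuous_nn i)).measurable
  · exact (Real.continuous_exp.comp (continuous_nn i).neg).measurable

theorem rho_bd (δ : Fin 3 → ℝ) (g : E6) :
    0 ≤ rho δ g ∧ rho δ g ≤ Real.exp (-∑ i, nn g i) := by
  rw [rho_expand]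
  have h0 : 0 ≤ ∏ i, th (δ i) ((g (lo i)).re / √(nn g i)) :=
    Finset.prod_nonneg fun i _ => th_nonneg _ _
  have h1 : ∏ i, th (δ i) ((g (lo i)).re / √(nn g i)) ≤ 1 :=
    Finset.prod_le_one (fun i _ => th_nonneg _ _) fun i _ => th_le_one _ _
  refine ⟨mul_nonneg h0 (Real.exp_pos _).le, ?_⟩
  exact mul_le_of_le_one_left (Real.exp_pos _).le h1

theorem rho_ne {δ : Fin 3 → ℝ} (hδ : Ad δ) {g : E6} (h : rho δ g ≠ 0) :
    g ∈ X1.U ∧ ∀ i, (1 - δ i) * √(nn g i) < (g (lo i)).re := by
  rw [rho_expand] at h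
  have h1 := left_ne_zero_of_mul h
  rw [Finset.prod_ne_zero_iff] at h1
  have h2 : ∀ i, 1 - δ i < (g (lo i)).re / √(nn g i) := fun i =>
    th_lt (hδ i).1 (h1 i (Finset.mem_univ i))
  have h3 : ∀ i, 0 < nn g i := by
    intro i
    rcases (nn_nonneg g i).lt_or_eq with h' | h'
    · exact h'
    · have h4 := h2 i
      rw [← h', Real.sqrt_zero, div_zero] at h4
      have := (hδ i).2
      linarith
  refine ⟨(mem_U1' g).mpr h3, fun i => ?_⟩
  exact (lt_div_iff₀ (Real.sqrt_pos.mpr (h3 i))).mp (h2 i)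

theorem rho_pos {δ : Fin 3 → ℝ} (hδ : Ad δ) {g : E6} (hg : g ∈ X1.U)
    (h : ∀ i, (1 - δ i) * √(nn g i) < (g (lo i)).re) : 0 < rho δ g := by
  rw [rho_expand]
  refine mul_pos (Finset.prod_pos fun i _ => ?_) (Real.exp_pos _)
  exact th_pos (hδ i).1
    ((lt_div_iff₀ (Real.sqrt_pos.mpr ((mem_U1' g).mp hg i))).mpr (h i))

theorem rho_mod (hQ : QuaStmt) (hM : QumStmt) : RhoStmt := by
  obtain ⟨q1, q2, q3, q4, q5, q6, q7, q8, q9, q10, q11, q12, q13⟩ := hQ
  intro δ hδ
  have hint : Integrable (rho δ) := by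
    refine Integrable.mono' hM.2.2.2.2.2.2 (measurable_rho δ).aestronglyMeasurable ?_
    refine Filter.Eventually.of_forall fun g => ?_
    rw [Real.norm_of_nonneg (rho_bd δ g).1]
    exact (rho_bd δ g).2
  refine ⟨rho_contOn δ, rho_bd δ, hint, ?_, ?_, ?_, fun g hg => rho_ne hδ hg, ?_⟩
  · unfold Zc
    rw [integral_pos_iff_support_of_nonneg (fun g => (rho_bd δ g).1) hint]
    have hO : IsOpen (X1.U ∩ ⋂ i, {g : E6 | (1 - δ i) * √(nn g i) < (g (lo i)).re}) := by
      refine isOpen_U1.inter (isOpen_iInter_of_finite fun i => ?_)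
      exact isOpen_lt (continuous_const.mul (Real.continuous_sqrt.comp (continuous_nn i)))
        (Complex.continuous_re.comp (continuous_apply (lo i)))
    have hl : ∀ i, one6 (lo i) = 1 := by
      intro i; fin_cases i <;> rfl
    have hh : ∀ i, one6 (hi i) = 0 := by
      intro i; fin_cases i <;> rfl
    have hn : ∀ i, nn one6 i = 1 := by
      intro i
      unfold nn
      rw [hl, hh]
      simp
    have hne : (X1.U ∩ ⋂ i, {g : E6 | (1 - δ i) * √(nn g i) < (g (lo i)).re}).Nonempty := by
      refine ⟨one6, ?_, ?_⟩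
      · rw [mem_U1']
        intro i
        rw [hn]
        exact one_pos
      · rw [Set.mem_iInter]
        intro i
        show (1 - δ i) * √(nn one6 i) < (one6 (lo i)).re
        rw [hn, hl, Real.sqrt_one, Complex.one_re]
        have := (hδ i).1
        linarith
    refine lt_of_lt_of_le (hO.measure_pos volume hne) (measure_mono ?_)
    rintro g ⟨hg1, hg2⟩
    rw [Set.mem_iInter] at hg2
    exact (rho_pos hδ hg1 fun i => hg2 i).ne'
  · intro g
    refine rho_congr (q13 g) fun i => ?_
    rw [cq_lo, Complex.conj_re]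
  · intro h hh g
    have hnn : ∀ i, nn h i = 1 := hh
    refine rho_congr (fun i => ?_) fun i => ?_
    · rw [q1, q1, q13, hnn, one_mul, mul_one]
    · have e1 : rip (qm h g) h i = rip (qm (cq g) (cq h)) (cq h) i := by
        unfold rip
        simp only [qm_lo, qm_hi, cq_lo, cq_hi, Complex.conj_conj, Complex.add_re, Complex.mul_re,
          Complex.sub_re, Complex.sub_im, Complex.add_im, Complex.mul_im, Complex.conj_re,
          Complex.conj_im, Complex.neg_re, Complex.neg_im, map_neg]
        ring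
      rw [q3, q11, e1, q12, q13, hnn, mul_one, cq_lo, Complex.conj_re]
  · intro h w hw
    have hnn : ∀ i, nn w i = 1 := hw
    rw [rho_expand]
    have e1 : ∀ i, nn (qm h (cq w)) i = nn h i := by
      intro i
      rw [q1, q13, hnn, mul_one]
    simp only [e1, q11]
    rfl

end Pool.Agent.SIQ.H50
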